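import Pool.Agent.U481.HW.Stm

/-!
# Project HW, package MUCK: Muckenhoupt's theorem for the uncentred maximal function (Lerner's proof)
-/

set_option autoImplicit false

open MeasureTheory Filter Topology Set
open scoped ENNReal NNReal

namespace Pool.Agent.U433.HW.MUCK

open Pool.Agent.U481.HW

theorem lt_MM {μ : Measure ℝ} {f : ℝ → ℝ≥0∞} {t : ℝ≥0∞} {x : ℝ} :
    t < MM μ f x ↔ ∃ a b : ℝ, (a < x ∧ x < b) ∧ t < (∫⁻ y in Ioo a b, f y ∂μ) / μ (Ioo a b) := by
  unfold MM
  simp only [lt_iSup_iff, exists_prop]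

theorem isOpen_MM (μ : Measure ℝ) (f : ℝ → ℝ≥0∞) (t : ℝ≥0∞) : IsOpen {x | t < MM μ f x} := by
  rw [isOpen_iff_mem_nhds]
  intro x hx
  obtain ⟨a, b, ⟨h1, h2⟩, h3⟩ := lt_MM.1 hx
  filter_upwards [Ioo_mem_nhds h1 h2] with y hy
  exact lt_MM.2 ⟨a, b, ⟨hy.1, hy.2⟩, h3⟩

theorem measurable_MM (μ : Measure ℝ) (f : ℝ → ℝ≥0∞) : Measurable (MM μ f) :=
  measurable_of_Ioi fun t => (isOpen_MM μ f t).measurableSet

theorem le_MM {μ : Measure ℝ} {f : ℝ → ℝ≥0∞} {a b x : ℝ} (ha : a < x) (hb : x < b) :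
    (∫⁻ y in Ioo a b, f y ∂μ) / μ (Ioo a b) ≤ MM μ f x :=
  le_iSup_of_le a (le_iSup_of_le b (le_iSup_of_le ⟨ha, hb⟩ le_rfl))

theorem ae_lt_top_loc {g : ℝ → ℝ≥0∞} (hg : Measurable g) (h : ∀ a b : ℝ, (∫⁻ x in Ioo a b, g x) < ⊤) :
    ∀ᵐ x, g x < ⊤ := by
  have h1 : ∀ n : ℕ, ∀ᵐ x, x ∈ Ioo (-(n : ℝ)) n → g x < ⊤ := fun n =>
    (ae_restrict_iff' measurableSet_Ioo).1 (ae_lt_top hg (h _ _).ne)
  filter_upwards [ae_all_iff.2 h1] with x hx
  obtain ⟨n, hn⟩ := exists_nat_gt |x|
  exact hx n ⟨by linarith [neg_abs_le x], lt_of_le_of_lt (le_abs_self x) hn⟩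

theorem pos_of_ae {g : ℝ → ℝ≥0∞} (hg : Measurable g) (h : ∀ᵐ x, g x ≠ 0) {a b : ℝ} (hab : a < b) :
    (∫⁻ x in Ioo a b, g x) ≠ 0 := by
  have h1 : 0 < ∫⁻ x in Ioo a b, g x := by
    rw [setLIntegral_pos_iff hg]
    have h2 : volume (Function.support g ∩ Ioo a b) = volume (Ioo a b) := by
      refine measure_congr ?_
      filter_upwards [h] with x hx
      exact propext ⟨fun hh => hh.2, fun hh => ⟨hx, hh⟩⟩
    rw [h2, Real.volume_Ioo, ENNReal.ofReal_pos]
    linarith
  exact h1.ne'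

/-- the algebra of the pointwise bound -/
theorem alg {X T L1 L W K : ℝ≥0∞} (hT0 : T ≠ 0) (hT : T ≠ ⊤) (hL1 : L1 ≠ 0) (hL1' : L1 ≠ ⊤)
    (hW0 : W ≠ 0) (hW : W ≠ ⊤) (h : W * T ≤ K * (L1 * L)) : X / L1 ≤ K * (X / T * L / W) := by
  have e1 : (W * T)⁻¹ = W⁻¹ * T⁻¹ := ENNReal.mul_inv (Or.inl hW0) (Or.inl hW)
  have hWT0 : W * T ≠ 0 := mul_ne_zero hW0 hT0
  have hWT : W * T ≠ ⊤ := ENNReal.mul_ne_top hW hT
  have h1 : L1⁻¹ ≤ K * L * (W * T)⁻¹ := by
    calc L1⁻¹ = (W * T) * (W * T)⁻¹ * L1⁻¹ := by rw [ENNReal.mul_inv_cancel hWT0 hWT, one_mul]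
      _ ≤ (K * (L1 * L)) * (W * T)⁻¹ * L1⁻¹ := by gcongr
      _ = K * L * (W * T)⁻¹ * (L1 * L1⁻¹) := by ring
      _ = K * L * (W * T)⁻¹ := by rw [ENNReal.mul_inv_cancel hL1 hL1', mul_one]
  calc X / L1 = X * L1⁻¹ := rfl
    _ ≤ X * (K * L * (W * T)⁻¹) := by gcongr
    _ = K * (X * T⁻¹ * L * W⁻¹) := by rw [e1]; ring
    _ = K * (X / T * L / W) := rfl

theorem main : S_strong → S_muck := by
  intro hS p hp w K hw
  have hp1 : 0 < p - 1 := by linarith
  have hp0 : 0 < p := by linarith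
  set p' : ℝ := p / (p - 1) with hp'
  have hp'1 : 1 < p' := by rw [hp', lt_div_iff₀ hp1]; linarith
  have hpp : (p - 1) * p' = p := by rw [hp']; field_simp
  have hexp : 1 - p' = -1 / (p - 1) := by rw [hp']; field_simp; ring
  obtain ⟨C1, hC1, h1⟩ := hS p' hp'1
  obtain ⟨C2, hC2, h2⟩ := hS p hp
  set s : ℝ → ℝ≥0∞ := fun x => w x ^ (-1 / (p - 1)) with hs
  have hneg : -1 / (p - 1) < 0 := by
    rw [neg_div]
    have := one_div_pos.2 hp1
    linarith
  have hsm : Measurable s := hw.meas.pow_const _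
  have hwtop : ∀ᵐ x, w x < ⊤ := ae_lt_top_loc hw.meas hw.fin
  have hstop : ∀ᵐ x, s x < ⊤ := ae_lt_top_loc hsm hw.sfin
  have hw0 : ∀ᵐ x, w x ≠ 0 := by
    filter_upwards [hstop] with x hx h0
    have h3 : s x = ⊤ := by
      show w x ^ (-1 / (p - 1)) = ⊤
      rw [h0, ENNReal.zero_rpow_of_neg hneg]
    rw [h3] at hx
    exact lt_irrefl _ hx
  have hs0 : ∀ᵐ x, s x ≠ 0 := by
    filter_upwards [hwtop] with x hx h0
    have h3 : w x ^ (-1 / (p - 1)) = 0 := h0
    rw [ENNReal.rpow_eq_zero_iff] at h3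
    rcases h3 with h3 | h3
    · linarith [h3.2]
    · exact hx.ne h3.1
  set μs : Measure ℝ := volume.withDensity s with hμs
  set μw : Measure ℝ := volume.withDensity w with hμw
  have hμs_fin : ∀ a b : ℝ, μs (Ioo a b) < ⊤ := fun a b => by
    rw [hμs, withDensity_apply _ measurableSet_Ioo]
    exact hw.sfin a b
  have hμw_fin : ∀ a b : ℝ, μw (Ioo a b) < ⊤ := fun a b => by
    rw [hμw, withDensity_apply _ measurableSet_Ioo]
    exact hw.fin a b
  refine ⟨K ^ p' * C1 * C2, ?_, fun f hf => ?_⟩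
  · exact ENNReal.mul_lt_top (ENNReal.mul_lt_top (ENNReal.rpow_lt_top_of_nonneg (by linarith) hw.Kfin.ne) hC1) hC2
  set F : ℝ → ℝ≥0∞ := fun x => f x / s x with hF
  have hFm : Measurable F := hf.div hsm
  set m : ℝ → ℝ≥0∞ := MM μs F with hm
  have hmm : Measurable m := measurable_MM _ _
  set h : ℝ → ℝ≥0∞ := fun y => m y ^ (p - 1) / w y with hh
  have hhm : Measurable h := (hmm.pow_const _).div hw.meas
  -- pointwise bound
  have hpt : ∀ x, MM volume f x ≤ (K * MM μw h x) ^ (1 / (p - 1)) := by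
    intro x
    unfold MM
    refine iSup_le fun a => iSup_le fun b => iSup_le fun hab => ?_
    have hlt : a < b := hab.1.trans hab.2
    set A := ∫⁻ y in Ioo a b, f y with hA
    set S := ∫⁻ y in Ioo a b, s y with hS'
    set W := ∫⁻ y in Ioo a b, w y with hW
    have hS0 : S ≠ 0 := pos_of_ae hsm hs0 hlt
    have hSt : S ≠ ⊤ := (hw.sfin a b).ne
    have hW0 : W ≠ 0 := pos_of_ae hw.meas hw0 hlt
    have hWt : W ≠ ⊤ := (hw.fin a b).ne
    set L := ENNReal.ofReal (b - a) with hL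
    have hL0 : L ≠ 0 := by
      rw [hL, Ne, ENNReal.ofReal_eq_zero]
      linarith
    have hLt : L ≠ ⊤ := ENNReal.ofReal_ne_top
    have hvol : volume (Ioo a b) = L := Real.volume_Ioo
    have hAF : ∫⁻ y in Ioo a b, F y ∂μs = A := by
      rw [hμs, setLIntegral_withDensity_eq_setLIntegral_mul _ hsm hFm measurableSet_Ioo, hA]
      refine lintegral_congr_ae (ae_restrict_of_ae ?_)
      filter_upwards [hs0, hstop] with y h3 h4
      show s y * (f y / s y) = f y
      exact ENNReal.mul_div_cancel h3 h4.ne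
    have hSs : μs (Ioo a b) = S := by rw [hμs, withDensity_apply _ measurableSet_Ioo]
    have hWw : μw (Ioo a b) = W := by rw [hμw, withDensity_apply _ measurableSet_Ioo]
    have step1 : ∀ y ∈ Ioo a b, A / S ≤ m y := by
      intro y hy
      have h3 := le_MM (μ := μs) (f := F) hy.1 hy.2
      rw [hAF, hSs] at h3
      exact h3
    have step2 : (A / S) ^ (p - 1) * L ≤ ∫⁻ y in Ioo a b, h y ∂μw := by
      rw [hμw, setLIntegral_withDensity_eq_setLIntegral_mul _ hw.meas hhm measurableSet_Ioo, ← hvol,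
        ← setLIntegral_const]
      refine setLIntegral_mono_ae (hw.meas.mul hhm).aemeasurable ?_
      filter_upwards [hw0, hwtop] with y h3 h4 hy
      show (A / S) ^ (p - 1) ≤ w y * (m y ^ (p - 1) / w y)
      rw [ENNReal.mul_div_cancel h3 h4.ne]
      exact ENNReal.rpow_le_rpow (step1 y hy) hp1.le
    have step3 : (A / S) ^ (p - 1) * L / W ≤ MM μw h x := by
      have h3 := le_MM (μ := μw) (f := h) hab.1 hab.2
      rw [hWw] at h3
      exact (ENNReal.div_le_div_right step2 W).trans h3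
    have step4 : (A / L) ^ (p - 1) ≤ K * ((A / S) ^ (p - 1) * L / W) := by
      rw [ENNReal.div_rpow_of_nonneg _ _ hp1.le, ENNReal.div_rpow_of_nonneg _ _ hp1.le]
      refine alg ?_ ?_ ?_ ?_ hW0 hWt ?_
      · rw [Ne, ENNReal.rpow_eq_zero_iff]
        rintro (h3 | h3)
        · exact hS0 h3.1
        · exact hSt h3.1
      · exact ENNReal.rpow_ne_top_of_nonneg hp1.le hSt
      · rw [Ne, ENNReal.rpow_eq_zero_iff]
        rintro (h3 | h3)
        · exact hL0 h3.1
        · exact hLt h3.1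
      · exact ENNReal.rpow_ne_top_of_nonneg hp1.le hLt
      · have h3 := hw.ap a b hlt
        have h4 : L ^ p = L ^ (p - 1) * L := by
          have h5 := ENNReal.rpow_add (p - 1) 1 hL0 hLt
          rw [ENNReal.rpow_one] at h5
          rw [← h5]
          congr 1
          ring
        rw [← h4]
        exact h3
    have step5 : (A / L) ^ (p - 1) ≤ K * MM μw h x := step4.trans (by gcongr)
    rw [hvol]
    calc A / L = ((A / L) ^ (p - 1)) ^ (1 / (p - 1)) := by
          rw [← ENNReal.rpow_mul, mul_one_div_cancel hp1.ne', ENNReal.rpow_one]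
      _ ≤ (K * MM μw h x) ^ (1 / (p - 1)) := ENNReal.rpow_le_rpow step5 (one_div_pos.2 hp1).le
  have hMw : Measurable (MM μw h) := measurable_MM _ _
  calc (∫⁻ x, (MM volume f x) ^ p * w x)
      ≤ ∫⁻ x, K ^ p' * (w x * (MM μw h x) ^ p') := by
        refine lintegral_mono fun x => ?_
        have h3 : (MM volume f x) ^ p ≤ K ^ p' * (MM μw h x) ^ p' := by
          calc (MM volume f x) ^ p ≤ ((K * MM μw h x) ^ (1 / (p - 1))) ^ p :=
                ENNReal.rpow_le_rpow (hpt x) hp0.le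
            _ = (K * MM μw h x) ^ p' := by
                rw [← ENNReal.rpow_mul]
                congr 1
                rw [hp']
                ring
            _ = K ^ p' * (MM μw h x) ^ p' := ENNReal.mul_rpow_of_nonneg _ _ (by linarith)
        calc (MM volume f x) ^ p * w x ≤ (K ^ p' * (MM μw h x) ^ p') * w x := by gcongr
          _ = K ^ p' * (w x * (MM μw h x) ^ p') := by ring
    _ = K ^ p' * ∫⁻ x, w x * (MM μw h x) ^ p' := lintegral_const_mul _ (hw.meas.mul (hMw.pow_const _))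
    _ = K ^ p' * ∫⁻ x, (MM μw h x) ^ p' ∂μw := by
        rw [hμw, lintegral_withDensity_eq_lintegral_mul _ hw.meas (hMw.pow_const _)]
        rfl
    _ ≤ K ^ p' * (C1 * ∫⁻ x, h x ^ p' ∂μw) := by
        gcongr
        exact h1 μw hμw_fin h hhm
    _ = K ^ p' * (C1 * ∫⁻ x, m x ^ p ∂μs) := by
        congr 2
        rw [hμw, hμs, lintegral_withDensity_eq_lintegral_mul _ hw.meas (hhm.pow_const _),
          lintegral_withDensity_eq_lintegral_mul _ hsm (hmm.pow_const _)]
        refine lintegral_congr_ae ?_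
        filter_upwards [hw0, hwtop] with y h3 h4
        show w y * (m y ^ (p - 1) / w y) ^ p' = s y * m y ^ p
        rw [ENNReal.div_rpow_of_nonneg _ _ (by linarith : (0 : ℝ) ≤ p'), ← ENNReal.rpow_mul, hpp,
          div_eq_mul_inv, ← ENNReal.rpow_neg]
        have h5 : w y * w y ^ (-p') = s y := by
          have h6 := ENNReal.rpow_add 1 (-p') h3 h4.ne
          rw [ENNReal.rpow_one] at h6
          rw [← h6]
          show w y ^ (1 + -p') = w y ^ (-1 / (p - 1))
          rw [← hexp]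
          congr 1
        rw [← h5]
        ring
    _ ≤ K ^ p' * (C1 * (C2 * ∫⁻ x, F x ^ p ∂μs)) := by
        gcongr
        exact h2 μs hμs_fin F hFm
    _ = K ^ p' * C1 * C2 * ∫⁻ x, (f x) ^ p * w x := by
        rw [hμs, lintegral_withDensity_eq_lintegral_mul _ hsm (hFm.pow_const _)]
        have h7 : (∫⁻ x, (s * fun x => F x ^ p) x) = ∫⁻ x, (f x) ^ p * w x := by
          refine lintegral_congr_ae ?_
          filter_upwards [hs0, hstop, hw0, hwtop] with y h3 h4 h5 h6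
          show s y * (f y / s y) ^ p = f y ^ p * w y
          rw [ENNReal.div_rpow_of_nonneg _ _ hp0.le, div_eq_mul_inv, ← ENNReal.rpow_neg]
          have h8 : s y * s y ^ (-p) = w y := by
            have h9 := ENNReal.rpow_add 1 (-p) h3 h4.ne
            rw [ENNReal.rpow_one] at h9
            rw [← h9]
            show (w y ^ (-1 / (p - 1))) ^ (1 + -p) = w y
            rw [← ENNReal.rpow_mul]
            have h10 : -1 / (p - 1) * (1 + -p) = 1 := by
              field_simp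
              ring
            rw [h10, ENNReal.rpow_one]
          rw [← h8]
          ring
        rw [h7]
        ring

end Pool.Agent.U433.HW.MUCK
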